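import Pool.Agent.SZG.StmtsE

/-!
Relations or a nonzero minor (row RKD of squad SZG, problem MP_160b6c_nt).
-/

set_option autoImplicit false

namespace Pool.Agent.SZG.H14

open scoped BigOperators

theorem rkd (h : Pool.Agent.THS.EvbStatement) : Pool.Agent.SZG.RkdStmt := by
  intro K X ι _ _ R f
  classical
  let Φ : (ι → K) →ₗ[K] (X → K) := Fintype.linearCombination K f
  by_cases hR : R ≤ Module.finrank K (LinearMap.range Φ)
  · right
    obtain ⟨κ, a, ha, hs, hl⟩ := exists_linearIndependent' K f
    have : Finite κ := Finite.of_injective a ha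
    letI : Fintype κ := Fintype.ofFinite κ
    have h1 : Module.finrank K (Submodule.span K (Set.range (f ∘ a))) = Fintype.card κ :=
      finrank_span_eq_card hl
    have h2 : LinearMap.range Φ = Submodule.span K (Set.range f) :=
      Fintype.range_linearCombination K f
    rw [h2, ← hs, h1] at hR
    obtain ⟨emb⟩ : Nonempty (Fin R ↪ κ) := by
      rw [← Fintype.card_fin R] at hR
      exact Function.Embedding.nonempty_of_card_le hR
    have h3 : LinearIndependent K (fun i : Fin R => f (a (emb i))) := hl.comp emb emb.injective
    obtain ⟨q, hq⟩ := h K X R _ h3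
    exact ⟨fun i => a (emb i), q, hq⟩
  · left
    push Not at hR
    have h1 : Module.finrank K (LinearMap.range Φ) + Module.finrank K (LinearMap.ker Φ) =
        Fintype.card ι := by
      rw [LinearMap.finrank_range_add_finrank_ker, Module.finrank_fintype_fun_eq_card]
    have h2 : Fintype.card ι - R ≤ Module.finrank K (LinearMap.ker Φ) := by omega
    obtain ⟨g, hg⟩ := exists_linearIndependent_of_le_finrank h2
    refine ⟨fun j => (g j : ι → K), ?_, ?_⟩
    · exact hg.map' (LinearMap.ker Φ).subtype (Submodule.ker_subtype _)
    · intro j y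
      have h3 : Φ (g j : ι → K) = 0 := (g j).2
      have h4 : (∑ i, (g j : ι → K) i • f i) y = 0 := congrFun h3 y
      rw [Finset.sum_apply] at h4
      exact h4

end Pool.Agent.SZG.H14
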